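import Pool.Agent.CMG.Stmts

/-!
# CMG, row CNT: a compact metrizable group has only countably many characters
-/

set_option autoImplicit false

open Set Topology

namespace Pool.Agent.CMG.H52

open Pool.Agent.LSG Pool.Agent.CMG

/-- a point of the circle all of whose powers are close to one -/
theorem near_one (z : ℂ) (hz : ‖z‖ = 1) (h : ∀ n : ℕ, ‖z ^ n - 1‖ < 1) : z = 1 := by
  have hb : ∀ k : ℕ, 3 ^ k * ‖z - 1‖ ^ 2 ≤ ‖z ^ (2 ^ k) - 1‖ ^ 2 := by
    intro k
    induction k with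
    | zero => simp
    | succ k ih =>
      have hw : ‖z ^ (2 ^ k)‖ = 1 := by rw [norm_pow, hz, one_pow]
      have h1 := h (2 ^ k)
      have hp := parallelogram_law_with_norm ℝ (z ^ (2 ^ k)) (1 : ℂ)
      rw [hw, norm_one] at hp
      have e : z ^ (2 ^ (k + 1)) - 1 = (z ^ (2 ^ k) - 1) * (z ^ (2 ^ k) + 1) := by
        rw [pow_succ 2 k, pow_mul]
        ring
      rw [e, norm_mul, mul_pow]
      have h2 : 3 ≤ ‖z ^ (2 ^ k) + 1‖ ^ 2 := by
        nlinarith [norm_nonneg (z ^ (2 ^ k) - 1)]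
      have h3 : 0 ≤ ‖z ^ (2 ^ k) - 1‖ ^ 2 := sq_nonneg _
      calc (3 : ℝ) ^ (k + 1) * ‖z - 1‖ ^ 2 = (3 ^ k * ‖z - 1‖ ^ 2) * 3 := by ring
        _ ≤ ‖z ^ (2 ^ k) - 1‖ ^ 2 * 3 := by linarith
        _ ≤ ‖z ^ (2 ^ k) - 1‖ ^ 2 * ‖z ^ (2 ^ k) + 1‖ ^ 2 := mul_le_mul_of_nonneg_left h2 h3
  by_contra hne
  have h0 : 0 < ‖z - 1‖ ^ 2 := pow_pos (norm_pos_iff.2 (sub_ne_zero.2 hne)) 2
  obtain ⟨k, hk⟩ := pow_unbounded_of_one_lt (1 / ‖z - 1‖ ^ 2) (by norm_num : (1 : ℝ) < 3)
  rw [div_lt_iff₀ h0] at hk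
  have h4 : ‖z ^ (2 ^ k) - 1‖ ^ 2 < 1 := by
    have := h (2 ^ k)
    nlinarith [norm_nonneg (z ^ (2 ^ k) - 1)]
  linarith [hb k]

/-- a character as a complex function -/
noncomputable def ch {K : Type} [Group K] [TopologicalSpace K] (χ : K →ₜ* Circle) : C(K, ℂ) :=
  ⟨fun x => ((χ x : Circle) : ℂ), (continuous_subtype_val : Continuous (Subtype.val : Circle → ℂ)).comp χ.continuous_toFun⟩

theorem ch_sep {K : Type} [Group K] [TopologicalSpace K] [CompactSpace K] (χ χ' : K →ₜ* Circle)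
    (h : dist (ch χ) (ch χ') < 1) : χ = χ' := by
  refine ContinuousMonoidHom.ext fun x => ?_
  have h1 : ∀ y : K, ‖((χ y : Circle) : ℂ) - ((χ' y : Circle) : ℂ)‖ < 1 := by
    intro y
    have h2 := ContinuousMap.dist_apply_le_dist (f := ch χ) (g := ch χ') y
    rw [dist_eq_norm] at h2
    exact h2.trans_lt h
  have hb : ((χ' x : Circle) : ℂ) ≠ 0 := Circle.coe_ne_zero _
  have hz : ((χ x : Circle) : ℂ) / ((χ' x : Circle) : ℂ) = 1 := by
    refine near_one _ ?_ ?_
    · rw [norm_div, Circle.norm_coe, Circle.norm_coe, div_one]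
    · intro n
      have e1 : (((χ x : Circle) : ℂ) / ((χ' x : Circle) : ℂ)) ^ n - 1 =
          (((χ (x ^ n) : Circle) : ℂ) - ((χ' (x ^ n) : Circle) : ℂ)) /
            ((χ' (x ^ n) : Circle) : ℂ) := by
        rw [map_pow, map_pow, Circle.coe_pow, Circle.coe_pow, div_pow, sub_div,
          div_self (pow_ne_zero n hb)]
      rw [e1, norm_div, Circle.norm_coe, div_one]
      exact h1 _
  exact Circle.ext ((div_eq_one_iff_eq hb).1 hz)

/-- Row CNT. -/
theorem cnt : CntStmt := by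
  intro K _ _ _ _ _
  let _ : MetricSpace K := TopologicalSpace.metrizableSpaceMetric K
  have h2 : SecondCountableTopology K := inferInstance
  have h3 : SecondCountableTopology C(K, ℂ) := inferInstance
  have h4 : TopologicalSpace.SeparableSpace C(K, ℂ) := inferInstance
  refine Pairwise.countable_of_isOpen_disjoint (α := C(K, ℂ))
    (s := fun χ : K →ₜ* Circle => Metric.ball (ch χ) (1 / 2)) ?_ ?_ ?_
  · intro χ χ' hne
    refine Metric.ball_disjoint_ball ?_
    by_contra hlt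
    rw [not_le] at hlt
    exact hne (ch_sep χ χ' (by linarith))
  · intro χ
    exact Metric.isOpen_ball
  · intro χ
    exact Metric.nonempty_ball.2 (by norm_num)

end Pool.Agent.CMG.H52
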